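import Pool.Agent.Q137.OC.Main

open Pool.Agent.Q137.OC

namespace Pool.Agent.Results.MP_89dd65_gt.FailsAtFour

/-- For `n = 4` the value of `|Θ_4|` at the configuration `θ*` is `π ^ 4 / 28`, while another
configuration has the value `π ^ 4 / 15`; the function `|Θ_4|` is bounded. Hence the supremum
of `|Θ_n|` is not attained at `θ*` for every `n ≥ 1`. -/
theorem result :
    |Theta 4 (thetaStar 4)| = Real.pi ^ 4 / 28 ∧
    (∃ θ : Fin (2 * 4 + 1) → Fin 4 → Circle, |Theta 4 θ| = Real.pi ^ 4 / 15) ∧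
    BddAbove (Set.range fun θ => |Theta 4 θ|) ∧
    ¬ ∀ n : ℕ, 1 ≤ n → (⨆ θ, |Theta n θ|) = |Theta n (thetaStar n)| := by
  have hpi := Real.pi_pos
  refine ⟨?_, ⟨fun j k => pt (Pb k j), ?_⟩, bddAbove_Theta 4, ?_⟩
  · rw [Theta_star, abs_of_pos (by positivity)]
  · rw [Theta_b, abs_of_pos (by positivity)]
  · intro h
    exact absurd (h 4 (by norm_num)) (ne_of_gt star_lt)

end Pool.Agent.Results.MP_89dd65_gt.FailsAtFour
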